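import Pool.Agent.H51.T5.Five

/-!
The Hall–Lang conjecture for all elliptic curves `y ^ 2 = x ^ 3 + A x + B` with a rational point
`T = (u, v)` of order five and all integral points `(x, y)` such that the common prime factors of
`x - u` and `x(2 T) - u` lie in a given finite set.
-/

set_option autoImplicit false

namespace Pool.Agent.Results.MP_a1107e_nt.FiveTorsionCommonPrimes

/-- Let `T = (u, v)` be a point of order five of the nonsingular curve `y ^ 2 = x ^ 3 + A x + B`
and `2 T = (u', v')` (all integers): the tangent at `T`, of slope `l`, passes through `-2 T`, and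
the tangent at `2 T`, of slope `l'`, passes through `T` (that is, `4 T = -T`). With an absolute
exponent `M` and a constant `K` depending only on the finite set `S` of primes, all integral points
`(x, y)` of all those curves for which every common prime factor of `x - u` and `u' - u` lies in
`S` satisfy `max |x| |y| ≤ K (max |A| |B|) ^ M`. (For `S = ∅`: all points with `x - u` prime to
`u' - u`, with absolute constants `K`, `M` and no condition on the curve.) -/
theorem result : ∃ M : ℕ, ∀ S : Finset ℕ, ∃ K : ℕ, ∀ A B u v l u' v' l' : ℤ,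
    4 * A ^ 3 + 27 * B ^ 2 ≠ 0 → v ^ 2 = u ^ 3 + A * u + B → u' ≠ u →
    2 * v * l = 3 * u ^ 2 + A → l ^ 2 = 2 * u + u' → -v' = v + l * (u' - u) →
    l' ^ 2 = 2 * u' + u → v = v' + l' * (u - u') →
    ∀ x y : ℤ, y ^ 2 = x ^ 3 + A * x + B →
      (∀ q : ℕ, q.Prime → (q : ℤ) ∣ x - u → (q : ℤ) ∣ u' - u → q ∈ S) →
      max x.natAbs y.natAbs ≤ K * (max A.natAbs B.natAbs) ^ M :=
  Pool.Agent.H51.T5.five'

end Pool.Agent.Results.MP_a1107e_nt.FiveTorsionCommonPrimes
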