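import Pool.Agent.H51.T7.Main

/-!
The Hall–Lang conjecture for the elliptic curves `y ^ 2 = x ^ 3 + A x + B` with a rational point
of order seven.
-/

set_option autoImplicit false

namespace Pool.Agent.Results.MP_a1107e_nt.SevenTorsion

/-- Let `T = (u₁, v₁)` be a rational point of order seven of the nonsingular curve
`y ^ 2 = x ^ 3 + A x + B` and `2 T = (u₂, v₂)`, `4 T = (u₃, v₃)` (all integers): the tangents at
`T`, `2 T`, `4 T`, of slopes `l₁`, `l₂`, `l₃`, pass through `-2 T`, `-4 T`, `-8 T = -T`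
respectively, and the line of slope `m` through `T` and `2 T` passes through `-3 T = 4 T`. With an
absolute exponent `M` and a constant `K` depending only on the finite set `S` of primes, all
integral points `(x, y)` of all those curves for which every common prime factor of `x - u₁` and
`u₃ - u₁` lies in `S` satisfy `max |x| |y| ≤ K (max |A| |B|) ^ M`. (For `S = ∅`: all points with
`x - u₁` prime to `u₃ - u₁`, with absolute constants `K`, `M` and no condition on the curve.)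
Example of such data: `y ^ 2 = x ^ 3 - 43 x + 166`, `T = (3, 8)`, `2 T = (-5, -16)`,
`4 T = (11, 32)`, `l₁ = l₂ = -1`, `l₃ = 5`, `m = 3`. -/
theorem result : ∃ M : ℕ, ∀ S : Finset ℕ, ∃ K : ℕ,
    ∀ A B u₁ v₁ l₁ u₂ v₂ l₂ u₃ v₃ l₃ m : ℤ, 4 * A ^ 3 + 27 * B ^ 2 ≠ 0 →
      u₁ ≠ u₂ → u₂ ≠ u₃ → u₃ ≠ u₁ →
      v₁ ^ 2 = u₁ ^ 3 + A * u₁ + B → 2 * v₁ * l₁ = 3 * u₁ ^ 2 + A →
      l₁ ^ 2 = 2 * u₁ + u₂ → -v₂ = v₁ + l₁ * (u₂ - u₁) →
      v₂ ^ 2 = u₂ ^ 3 + A * u₂ + B → 2 * v₂ * l₂ = 3 * u₂ ^ 2 + A →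
      l₂ ^ 2 = 2 * u₂ + u₃ → -v₃ = v₂ + l₂ * (u₃ - u₂) →
      v₃ ^ 2 = u₃ ^ 3 + A * u₃ + B → 2 * v₃ * l₃ = 3 * u₃ ^ 2 + A →
      l₃ ^ 2 = 2 * u₃ + u₁ → -v₁ = v₃ + l₃ * (u₁ - u₃) →
      m ^ 2 = u₁ + u₂ + u₃ → v₂ = v₁ + m * (u₂ - u₁) → v₃ = v₂ + m * (u₃ - u₂) →
      ∀ x y : ℤ, y ^ 2 = x ^ 3 + A * x + B →
        (∀ q : ℕ, q.Prime → (q : ℤ) ∣ x - u₁ → (q : ℤ) ∣ u₃ - u₁ → q ∈ S) →
        max x.natAbs y.natAbs ≤ K * (max A.natAbs B.natAbs) ^ M :=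
  Pool.Agent.H51.T7.seven

end Pool.Agent.Results.MP_a1107e_nt.SevenTorsion
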