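import Pool.Agent.H51.T7.Engine
import Pool.Graph.R_pool_sql_team_seeded_64922ed1.X95T.H

/-!
The Hall–Lang conjecture for all elliptic curves `y ^ 2 = x ^ 3 + A x + B` with a rational point
`T = (u, v)` of order three and all integral points `(x, y)` such that the common prime factors of
`2 v` and the value of the torsion function at `(x, y)` lie in a given finite set.
-/

set_option autoImplicit false

namespace Pool.Agent.Results.MP_a1107e_nt.ThreeTorsionCommonPrimes

/-- Let `T = (u, v)` be a point of order three of the nonsingular curve `y ^ 2 = x ^ 3 + A x + B`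
(`A`, `B`, `u`, `v` integers); the tangent line at `T` is an inflection tangent, of slope `l`.
With an absolute exponent `M` and a constant `K` depending only on the finite set `S` of primes, all
integral points `(x, y)` of all those curves for which every common prime factor of
`y - v - l (x - u)` and `2 v` lies in `S` satisfy `max |x| |y| ≤ K (max |A| |B|) ^ M`. -/
theorem result : ∃ M : ℕ, ∀ S : Finset ℕ, ∃ K : ℕ, ∀ A B u v l : ℤ,
    4 * A ^ 3 + 27 * B ^ 2 ≠ 0 → v ^ 2 = u ^ 3 + A * u + B →
    2 * v * l = 3 * u ^ 2 + A → l ^ 2 = 3 * u →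
    ∀ x y : ℤ, y ^ 2 = x ^ 3 + A * x + B →
      (∀ q : ℕ, q.Prime → (q : ℤ) ∣ y - v - l * (x - u) → (q : ℤ) ∣ 2 * v → q ∈ S) →
      max x.natAbs y.natAbs ≤ K * (max A.natAbs B.natAbs) ^ M := by
  obtain ⟨C, hC⟩ := Pool.Agent.H51.T7.common 3 2 1 Nat.prime_three (by norm_num) (by norm_num)
    (by norm_num) (by norm_num)
  refine ⟨3 * (C + 3), fun S => ?_⟩
  obtain ⟨c, hc⟩ := hC S
  refine ⟨(2000 * (c + 1)) ^ (C + 3), ?_⟩
  intro A B u v l hD hT h2 h3 x y hE hS
  have h27 : (2 * l) ^ 3 ≠ 27 * (2 * v) := by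
    rw [Pool.Agent.X95T.disc A B u v l hT h2 h3] at hD
    intro h
    apply hD
    have : 27 * v - 4 * l ^ 3 = 0 := by
      have h4 : 2 * (27 * v - 4 * l ^ 3) = 0 := by linear_combination -h
      omega
    rw [this, mul_zero]
  apply Pool.Agent.X95T.final_bound hD hT h2 h3
  apply hc (Pool.Agent.X95T.cub (2 * l) (2 * v)) Polynomial.X (Polynomial.C (-(2 * l))) 1 (2 * v)
    (Pool.Agent.X95T.weights_cub _ _) (Pool.Agent.X95T.line_cub _ _)
  · rw [Pool.Agent.X95T.deriv_cub, Polynomial.C_neg]
    ring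
  · intro a ha
    exact Pool.Agent.X95T.irr_cub a (2 * l) (2 * v) ha h27
  · rw [Pool.Agent.X95T.eval_cub]
    linear_combination hE - hT - (x - u) * h2 - (x - u) ^ 2 * h3
  · exact hS

end Pool.Agent.Results.MP_a1107e_nt.ThreeTorsionCommonPrimes
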