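import Mathlib

/-!
The Hall–Lang conjecture for the elliptic curves `y ^ 2 = x ^ 3 + A x + B` with a rational point
`(u, 0)` of order two and the integral points for which `x - u` is prime to `3 u ^ 2 + A` or a
square, with the best possible exponents.
-/

set_option autoImplicit false

namespace Pool.Agent.Results.MP_a1107e_nt.TwoTorsionCoprime

lemma diff_sq (p q d : ℤ) (hd : d ≠ 0) (h : p ^ 2 - q ^ 2 = d) : |q| ≤ |d| := by
  have h1 : (p - q) * (p + q) = d := by linear_combination h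
  have h2 : p - q ≠ 0 := by
    intro h0
    rw [h0, zero_mul] at h1
    exact hd h1.symm
  have h3 : p + q ≠ 0 := by
    intro h0
    rw [h0, mul_zero] at h1
    exact hd h1.symm
  have h4 : 1 ≤ |p - q| := Int.one_le_abs h2
  have h5 : 1 ≤ |p + q| := Int.one_le_abs h3
  have h6 : |p - q| * |p + q| = |d| := by rw [← abs_mul, h1]
  have h7 : 2 * |q| ≤ |p + q| + |p - q| := by
    have e1 : |2 * q| = 2 * |q| := by rw [abs_mul, abs_two]
    have e2 : 2 * q = (p + q) - (p - q) := by ring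
    rw [← e1, e2]
    exact abs_sub _ _
  nlinarith [mul_nonneg (sub_nonneg.2 h4) (sub_nonneg.2 h5)]

/-- the bound for the abscissa measured from the centre -/
lemma centre {A B u x y : ℤ} (hD : 4 * A ^ 3 + 27 * B ^ 2 ≠ 0) (hu : u ^ 3 + A * u + B = 0)
    (hE : y ^ 2 = x ^ 3 + A * x + B) (hx : x ≠ u)
    (h : IsSquare (x - u) ∨ IsCoprime (x - u) (3 * u ^ 2 + A)) :
    |2 * (x - u) + 3 * u| ≤ |3 * u ^ 2 + 4 * A| := by
  obtain ⟨X, hX⟩ : ∃ X, X = x - u := ⟨_, rfl⟩
  rw [← hX] at h ⊢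
  have hX0 : X ≠ 0 := by
    rw [hX]
    exact sub_ne_zero.2 hx
  have hq : X * (X ^ 2 + 3 * u * X + (3 * u ^ 2 + A)) = y ^ 2 := by
    rw [hX]
    linear_combination -hE - hu
  have hd : 3 * u ^ 2 + 4 * A ≠ 0 := by
    intro h0
    apply hD
    have hB : B = -u ^ 3 - A * u := by linear_combination hu
    rw [hB]
    linear_combination (A + 3 * u ^ 2) ^ 2 * h0
  rcases lt_or_gt_of_ne hX0 with hneg | hpos
  · have h1 : X ^ 2 + 3 * u * X + (3 * u ^ 2 + A) ≤ 0 := by
      by_contra h2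
      have h3 : X * (X ^ 2 + 3 * u * X + (3 * u ^ 2 + A)) < 0 :=
        mul_neg_of_neg_of_pos hneg (not_le.1 h2)
      rw [hq] at h3
      exact absurd h3 (not_lt.2 (sq_nonneg y))
    have h2 : (2 * X + 3 * u) ^ 2 ≤ |3 * u ^ 2 + 4 * A| := by
      have h3 : (2 * X + 3 * u) ^ 2 =
          4 * (X ^ 2 + 3 * u * X + (3 * u ^ 2 + A)) - (3 * u ^ 2 + 4 * A) := by ring
      have h4 := neg_abs_le (3 * u ^ 2 + 4 * A)
      linarith
    have h3 : |2 * X + 3 * u| ≤ (2 * X + 3 * u) ^ 2 := by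
      rw [← sq_abs]
      rcases eq_or_ne (2 * X + 3 * u) 0 with h0 | h0
      · rw [h0]; simp
      · have := Int.one_le_abs h0
        nlinarith
    exact h3.trans h2
  · have hsq : ∃ z : ℤ, X = z ^ 2 := by
      rcases h with ⟨z, hz⟩ | hcop
      · exact ⟨z, by rw [hz]; ring⟩
      · have hc : IsCoprime X (X ^ 2 + 3 * u * X + (3 * u ^ 2 + A)) := by
          obtain ⟨a, b, hab⟩ := hcop
          exact ⟨a - b * (X + 3 * u), b, by linear_combination hab⟩
        obtain ⟨z, hz⟩ := Int.sq_of_isCoprime hc hq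
        rcases hz with hz | hz
        · exact ⟨z, hz⟩
        · exfalso
          have := sq_nonneg z
          omega
    obtain ⟨z, hz⟩ := hsq
    have hz0 : z ≠ 0 := by
      rintro rfl
      rw [hz] at hX0
      exact hX0 (by norm_num)
    have hzy : z ∣ y := by
      have h1 : z ^ 2 ∣ y ^ 2 := ⟨_, by rw [← hq, ← hz]⟩
      exact (Int.pow_dvd_pow_iff two_ne_zero).1 h1
    obtain ⟨w, hw⟩ := hzy
    have hw2 : w ^ 2 = X ^ 2 + 3 * u * X + (3 * u ^ 2 + A) := by
      have h1 : z ^ 2 * w ^ 2 = z ^ 2 * (X ^ 2 + 3 * u * X + (3 * u ^ 2 + A)) := by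
        rw [← hz, hq, hw, hz]
        ring
      exact mul_left_cancel₀ (pow_ne_zero 2 hz0) h1
    exact diff_sq (2 * w) (2 * X + 3 * u) _ hd (by linear_combination 4 * hw2)

/-- Part 1: let `y ^ 2 = x ^ 3 + A x + B` (`A`, `B` integers) be a nonsingular curve with the point
`(u, 0)` of order two (`u` an integer) and `H = max |A| |B|`. Every integral point `(x, y)` such
that `x - u` is a square or prime to `3 u ^ 2 + A` satisfies `|x| ≤ 6 H` and `y ^ 2 ≤ 225 H ^ 3`,
that is, `|y| ≤ 15 H ^ (3 / 2)`. Part 2: the exponents `1` and `3 / 2` are best possible: there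
are such points (with both properties) with `H` arbitrarily large, `H ≤ 2 |x|` and
`H ^ 3 ≤ 2 y ^ 2`. -/
theorem result :
    (∀ A B u x y : ℤ, 4 * A ^ 3 + 27 * B ^ 2 ≠ 0 → u ^ 3 + A * u + B = 0 →
      y ^ 2 = x ^ 3 + A * x + B → IsSquare (x - u) ∨ IsCoprime (x - u) (3 * u ^ 2 + A) →
      |x| ≤ 6 * max |A| |B| ∧ y ^ 2 ≤ 225 * (max |A| |B|) ^ 3) ∧
    (∀ N : ℤ, ∃ A B u x y : ℤ, 4 * A ^ 3 + 27 * B ^ 2 ≠ 0 ∧ u ^ 3 + A * u + B = 0 ∧
      y ^ 2 = x ^ 3 + A * x + B ∧ IsSquare (x - u) ∧ IsCoprime (x - u) (3 * u ^ 2 + A) ∧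
      N ≤ max |A| |B| ∧ max |A| |B| ≤ 2 * |x| ∧ (max |A| |B|) ^ 3 ≤ 2 * y ^ 2) := by
  constructor
  · intro A B u x y hD hu hE h
    obtain ⟨H, hH⟩ : ∃ H, H = max |A| |B| := ⟨_, rfl⟩
    rw [← hH]
    have hA : |A| ≤ H := hH ▸ le_max_left _ _
    have hB : |B| ≤ H := hH ▸ le_max_right _ _
    have hH1 : 1 ≤ H := by
      by_contra h0
      have hA0 : A = 0 := abs_eq_zero.1 (le_antisymm (by omega) (abs_nonneg A))
      have hB0 : B = 0 := abs_eq_zero.1 (le_antisymm (by omega) (abs_nonneg B))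
      apply hD
      rw [hA0, hB0]
      norm_num
    -- the size of the root
    have hu2 : u ^ 2 ≤ 2 * H := by
      rcases eq_or_ne u 0 with h0 | h0
      · rw [h0]; linarith [hH1]
      · have h1 : 1 ≤ |u| := Int.one_le_abs h0
        have h2 : |u| ^ 3 ≤ H * |u| + H := by
          have e1 : u ^ 3 = -(A * u) - B := by linear_combination hu
          rw [← abs_pow, e1]
          refine (abs_sub _ _).trans (add_le_add ?_ hB)
          rw [abs_neg, abs_mul]
          exact mul_le_mul_of_nonneg_right hA (abs_nonneg u)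
        have h3 : |u| * |u| ^ 2 ≤ |u| * (2 * H) := by nlinarith
        have h4 := le_of_mul_le_mul_left h3 (by linarith)
        rwa [sq_abs] at h4
    have hu1 : |u| ≤ 2 * H := by
      have h1 : |u| ≤ |u| ^ 2 := by
        rcases eq_or_ne u 0 with h0 | h0
        · rw [h0]; simp
        · have := Int.one_le_abs h0
          nlinarith
      rw [sq_abs] at h1
      linarith
    have hx : |x| ≤ 6 * H := by
      rcases eq_or_ne x u with hxu | hxu
      · rw [hxu]; linarith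
      · have h1 := centre hD hu hE hxu h
        have h2 : |3 * u ^ 2 + 4 * A| ≤ 10 * H := by
          refine (abs_add_le _ _).trans ?_
          rw [abs_mul, abs_mul, abs_pow, sq_abs]
          have e1 : |(3 : ℤ)| = 3 := by norm_num
          have e2 : |(4 : ℤ)| = 4 := by norm_num
          rw [e1, e2]
          linarith
        have h3 : 2 * |x| ≤ |2 * (x - u) + 3 * u| + |u| := by
          have e1 : |2 * x| = 2 * |x| := by rw [abs_mul, abs_two]
          have e2 : 2 * x = (2 * (x - u) + 3 * u) - u := by ring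
          rw [← e1, e2]
          exact abs_sub _ _
        linarith
    refine ⟨hx, ?_⟩
    have h1 : x ^ 3 ≤ (6 * H) ^ 3 := by
      refine (le_abs_self _).trans ?_
      rw [abs_pow]
      exact pow_le_pow_left₀ (abs_nonneg x) hx 3
    have h2 : A * x ≤ H * (6 * H) := by
      refine (le_abs_self _).trans ?_
      rw [abs_mul]
      exact mul_le_mul hA hx (abs_nonneg x) (by linarith)
    have h3 : B ≤ H := (le_abs_self B).trans hB
    have h4 : H ^ 2 ≤ H ^ 3 := pow_le_pow_right₀ hH1 (by norm_num)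
    have h5 : H ≤ H ^ 3 := le_self_pow₀ hH1 (by norm_num)
    rw [hE]
    nlinarith
  · intro N
    obtain ⟨k, hk⟩ : ∃ k : ℤ, k = |N| + 1 := ⟨_, rfl⟩
    have hk1 : 1 ≤ k := by rw [hk]; linarith [abs_nonneg N]
    have hkN : N ≤ k := by rw [hk]; linarith [le_abs_self N]
    obtain ⟨z, hz⟩ : ∃ z : ℤ, z = 2 * k + 1 := ⟨_, rfl⟩
    have hz2 : 4 * k + 5 ≤ z ^ 2 := by rw [hz]; nlinarith
    have hmax : max |z ^ 2 + 1| |(-(z ^ 2 + 2))| = z ^ 2 + 2 := by
      rw [abs_neg, abs_of_pos (by positivity), abs_of_pos (by positivity)]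
      exact max_eq_right (by linarith)
    refine ⟨z ^ 2 + 1, -(z ^ 2 + 2), 1, z ^ 2 + 1, z * (z ^ 2 + 2), ?_, by ring, by ring,
      ⟨z, by ring⟩, ?_, ?_, ?_, ?_⟩
    · have : 0 < 4 * (z ^ 2 + 1) ^ 3 + 27 * (-(z ^ 2 + 2)) ^ 2 := by positivity
      exact this.ne'
    · refine ⟨1 + k * (k + 1), -(k * (k + 1)), ?_⟩
      rw [hz]
      ring
    · rw [hmax]
      linarith
    · rw [hmax, abs_of_pos (by positivity)]
      linarith [sq_nonneg z]
    · rw [hmax]
      have h1 : 2 * (z * (z ^ 2 + 2)) ^ 2 - (z ^ 2 + 2) ^ 3 = (z ^ 2 + 2) ^ 2 * (z ^ 2 - 2) := by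
        ring
      have h2 : 0 ≤ (z ^ 2 + 2) ^ 2 * (z ^ 2 - 2) := mul_nonneg (sq_nonneg _) (by linarith)
      linarith

end Pool.Agent.Results.MP_a1107e_nt.TwoTorsionCoprime
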